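import Pool.Agent.Run7.h404.TetraDefs

namespace Run7.h404.Tetra

open Finset

/-- integer quadruples -/
abbrev Q4 : Type := Fin 4 → ℤ

def Nq (q : Q4) : ℤ := q 0 ^ 2 + q 1 ^ 2 + q 2 ^ 2 + q 3 ^ 2

/-- Euler-Rodrigues matrix. -/
def R (q : Q4) : Fin 3 → Fin 3 → ℤ := fun i j =>
  match i, j with
  | 0, 0 => q 0 ^ 2 + q 1 ^ 2 - q 2 ^ 2 - q 3 ^ 2
  | 0, 1 => 2 * (q 1 * q 2 - q 0 * q 3)
  | 0, 2 => 2 * (q 1 * q 3 + q 0 * q 2)
  | 1, 0 => 2 * (q 1 * q 2 + q 0 * q 3)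
  | 1, 1 => q 0 ^ 2 - q 1 ^ 2 + q 2 ^ 2 - q 3 ^ 2
  | 1, 2 => 2 * (q 2 * q 3 - q 0 * q 1)
  | 2, 0 => 2 * (q 1 * q 3 - q 0 * q 2)
  | 2, 1 => 2 * (q 2 * q 3 + q 0 * q 1)
  | 2, 2 => q 0 ^ 2 - q 1 ^ 2 - q 2 ^ 2 + q 3 ^ 2

/-- the similarity `x ↦ v + R(q) x`. -/
noncomputable def phi (v : Fin 3 → ℤ) (q : Q4) (x : E3) : E3 :=
  WithLp.toLp 2 (fun i => (v i : ℝ) + ∑ j, (R q i j : ℝ) * x j)

theorem phi_apply (v : Fin 3 → ℤ) (q : Q4) (x : E3) (i : Fin 3) :
    phi v q x i = (v i : ℝ) + ∑ j, (R q i j : ℝ) * x j := rfl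

theorem dist_phi (v : Fin 3 → ℤ) (q : Q4) (x y : E3) :
    dist (phi v q x) (phi v q y) = (Nq q : ℝ) * dist x y := by
  have hN : (0 : ℝ) ≤ (Nq q : ℝ) := by
    have : 0 ≤ Nq q := by unfold Nq; positivity
    exact_mod_cast this
  rw [EuclideanSpace.dist_eq, EuclideanSpace.dist_eq]
  rw [show (Nq q : ℝ) * √(∑ i, dist (x i) (y i) ^ 2) =
    √((Nq q : ℝ) ^ 2 * ∑ i, dist (x i) (y i) ^ 2) by
      rw [Real.sqrt_mul (sq_nonneg _), Real.sqrt_sq hN]]
  congr 1
  simp only [Real.dist_eq, sq_abs, Fin.sum_univ_three, phi_apply]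
  simp only [R, Nq]
  push_cast
  ring

theorem isSimilarity_phi (v : Fin 3 → ℤ) (q : Q4) (hq : 0 < Nq q) : IsSimilarity (phi v q) :=
  ⟨(Nq q : ℝ), by exact_mod_cast hq, fun x y => dist_phi v q x y⟩

/-- `phi` as an affine map -/
noncomputable def aff (v : Fin 3 → ℤ) (q : Q4) : E3 →ᵃ[ℝ] E3 where
  toFun := phi v q
  linear :=
    { toFun := fun x => WithLp.toLp 2 (fun i => ∑ j, (R q i j : ℝ) * x j)
      map_add' := by
        intro x y
        ext i
        simp [mul_add, Finset.sum_add_distrib]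
      map_smul' := by
        intro c x
        ext i
        simp [Finset.mul_sum, mul_left_comm] }
  map_vadd' := by
    intro p w
    ext i
    simp [phi, mul_add, Finset.sum_add_distrib]
    ring

theorem aff_apply (v : Fin 3 → ℤ) (q : Q4) (x : E3) : aff v q x = phi v q x := rfl

theorem R_col (q : Q4) : R q 0 0 ^ 2 + R q 1 0 ^ 2 + R q 2 0 ^ 2 = Nq q ^ 2 := by
  simp only [R, Nq]; ring

/-- from the matrix one recovers the quadruple, if its entries are positive -/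
theorem R_inj (q q' : Q4) (hq : ∀ i, 0 < q i) (hq' : ∀ i, 0 < q' i) (h : R q = R q') :
    q = q' := by
  have hN0 : 0 < Nq q := by unfold Nq; have := hq 0; positivity
  have hN0' : 0 < Nq q' := by unfold Nq; have := hq' 0; positivity
  have hN : Nq q = Nq q' := by
    have h1 := R_col q
    rw [h, R_col q'] at h1
    nlinarith [sq_nonneg (Nq q - Nq q')]
  have h00 : R q 0 0 = R q' 0 0 := by rw [h]
  have h11 : R q 1 1 = R q' 1 1 := by rw [h]
  have h22 : R q 2 2 = R q' 2 2 := by rw [h]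
  simp only [R, Nq] at h00 h11 h22 hN
  have e0 : q 0 ^ 2 = q' 0 ^ 2 := by linarith
  have e1 : q 1 ^ 2 = q' 1 ^ 2 := by linarith
  have e2 : q 2 ^ 2 = q' 2 ^ 2 := by linarith
  have e3 : q 3 ^ 2 = q' 3 ^ 2 := by linarith
  ext i
  fin_cases i
  · exact (pow_left_inj₀ (hq 0).le (hq' 0).le two_ne_zero).1 e0
  · exact (pow_left_inj₀ (hq 1).le (hq' 1).le two_ne_zero).1 e1
  · exact (pow_left_inj₀ (hq 2).le (hq' 2).le two_ne_zero).1 e2
  · exact (pow_left_inj₀ (hq 3).le (hq' 3).le two_ne_zero).1 e3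

theorem phi_inj (v v' : Fin 3 → ℤ) (q q' : Q4) (hq : ∀ i, 0 < q i) (hq' : ∀ i, 0 < q' i)
    (h : phi v q = phi v' q') : v = v' ∧ q = q' := by
  have hv : v = v' := by
    ext i
    have := congrFun h 0
    have h2 := congrArg (fun z : E3 => z i) this
    simp only [phi_apply] at h2
    simp at h2
    exact_mod_cast h2
  refine ⟨hv, R_inj q q' hq hq' ?_⟩
  subst hv
  funext i j
  have := congrFun h (EuclideanSpace.single j (1 : ℝ))
  have h2 := congrArg (fun z : E3 => z i) this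
  simp only [phi_apply] at h2
  simp at h2
  exact_mod_cast h2

theorem aff_span_top (T : Finset E3) (hT : IsTetrahedron T) :
    affineSpan ℝ (T : Set E3) = ⊤ := by
  have h := hT.2.affineSpan_eq_top_iff_card_eq_finrank_add_one.2
    (by rw [Fintype.card_coe, hT.1, finrank_euclideanSpace_fin])
  rwa [Subtype.range_coe_subtype, show {x : E3 | x ∈ T} = (T : Set E3) from rfl] at h

theorem phi_inj_on (T : Finset E3) (hT : IsTetrahedron T) (v v' : Fin 3 → ℤ) (q q' : Q4)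
    (hq : ∀ i, 0 < q i) (hq' : ∀ i, 0 < q' i) (h : ∀ x ∈ T, phi v q x = phi v' q' x) :
    v = v' ∧ q = q' := by
  apply phi_inj v v' q q' hq hq'
  have : aff v q = aff v' q' := AffineMap.ext_on (aff_span_top T hT) (fun x hx => h x hx)
  funext x
  rw [← aff_apply, ← aff_apply, this]

end Run7.h404.Tetra
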