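import Pool.Agent.Run7.h404.Tetra

namespace Run7.h404.Tetra

open Finset

/-- integer point as a point of Euclidean space -/
noncomputable def toE (v : Fin 3 → ℤ) : E3 := WithLp.toLp 2 (fun i => (v i : ℝ))

theorem toE_inj : Function.Injective toE := by
  intro v w h
  ext i
  have h2 := congrArg (fun z : E3 => z i) h
  simp [toE] at h2
  exact h2

/-- the cubic grid -/
noncomputable def grid (L : ℕ) : Finset E3 :=
  (Fintype.piFinset (fun _ : Fin 3 => Finset.Ico (0 : ℤ) L)).map ⟨toE, toE_inj⟩

theorem card_grid (L : ℕ) : (grid L).card = L ^ 3 := by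
  simp [grid, Fintype.card_piFinset]

theorem mem_grid (L : ℕ) (x : E3) (w : Fin 3 → ℤ) (hw : ∀ i, x i = (w i : ℝ))
    (h0 : ∀ i, 0 ≤ w i) (h1 : ∀ i, w i < L) : x ∈ grid L := by
  rw [grid, Finset.mem_map]
  refine ⟨w, ?_, ?_⟩
  · simp only [Fintype.mem_piFinset, Finset.mem_Ico]
    exact fun i => ⟨h0 i, h1 i⟩
  · ext i
    simp [toE, hw i]

theorem simCount_set_finite (P T : Finset E3) :
    {S : Finset E3 | S ⊆ P ∧ ∃ φ : E3 → E3, IsSimilarity φ ∧
      φ '' (T : Set E3) = (S : Set E3)}.Finite := by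
  apply (P.powerset.finite_toSet).subset
  intro S hS
  simpa using hS.1

theorem simCount_mono {P P' : Finset E3} (h : P ⊆ P') (T : Finset E3) :
    simCount P T ≤ simCount P' T := by
  apply Set.ncard_le_ncard _ (simCount_set_finite P' T)
  rintro S ⟨h1, h2⟩
  exact ⟨h1.trans h, h2⟩

open Classical in
/-- main counting lemma: any family of parameters with images inside `P` -/
theorem card_le_simCount (T : Finset E3) (hT : IsTetrahedron T) (P : Finset E3)
    (W : Finset ((Fin 3 → ℤ) × Q4)) (hpos : ∀ a ∈ W, ∀ i, 0 < a.2 i)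
    (hP : ∀ a ∈ W, ∀ x ∈ T, phi a.1 a.2 x ∈ P) : W.card ≤ 256 * simCount P T := by
  let F : ((Fin 3 → ℤ) × Q4) → Finset E3 := fun a => T.image (phi a.1 a.2)
  have h1 : W.card ≤ 256 * (W.image F).card := by
    apply Finset.card_le_mul_card_image
    intro S hS
    have hScard : S.card ≤ 4 := by
      obtain ⟨a, _, rfl⟩ := Finset.mem_image.1 hS
      exact Finset.card_image_le.trans hT.1.le
    have h2 : (W.filter (fun a => F a = S)).card ≤
        (Fintype.piFinset (fun _ : T => S)).card := by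
      apply Finset.card_le_card_of_injOn (fun a => fun x : T => phi a.1 a.2 (x : E3))
      · intro a ha
        rw [Finset.mem_coe, Finset.mem_filter] at ha
        rw [Finset.mem_coe, Fintype.mem_piFinset]
        intro x
        rw [← ha.2]
        exact Finset.mem_image_of_mem _ x.2
      · intro a ha b hb hab
        rw [Finset.mem_coe, Finset.mem_filter] at ha hb
        obtain ⟨e1, e2⟩ := phi_inj_on T hT a.1 b.1 a.2 b.2 (hpos a ha.1) (hpos b hb.1)
          (fun x hx => congrFun hab ⟨x, hx⟩)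
        exact Prod.ext e1 e2
    refine h2.trans ?_
    rw [Fintype.card_piFinset]
    simp only [Finset.prod_const, Finset.card_univ, Fintype.card_coe, hT.1]
    calc S.card ^ 4 ≤ 4 ^ 4 := Nat.pow_le_pow_left hScard 4
      _ = 256 := by norm_num
  refine h1.trans (Nat.mul_le_mul_left _ ?_)
  rw [← Set.ncard_coe_finset]
  apply Set.ncard_le_ncard _ (simCount_set_finite P T)
  intro S hS
  rw [Finset.mem_coe, Finset.mem_image] at hS
  obtain ⟨a, ha, rfl⟩ := hS
  refine ⟨?_, phi a.1 a.2, isSimilarity_phi _ _ ?_, ?_⟩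
  · intro y hy
    obtain ⟨x, hx, rfl⟩ := Finset.mem_image.1 hy
    exact hP a ha x hx
  · have := hpos a ha 0
    unfold Nq
    positivity
  · simp [F]

/-- entries of the matrix are bounded by the norm -/
theorem abs_R_le (q : Q4) (i j : Fin 3) : |R q i j| ≤ Nq q := by
  rw [abs_le]
  fin_cases i <;> fin_cases j <;> simp only [R, Nq] <;> constructor <;>
    nlinarith [sq_nonneg (q 0), sq_nonneg (q 1), sq_nonneg (q 2), sq_nonneg (q 3),
      sq_nonneg (q 0 - q 1), sq_nonneg (q 0 + q 1), sq_nonneg (q 0 - q 2), sq_nonneg (q 0 + q 2),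
      sq_nonneg (q 0 - q 3), sq_nonneg (q 0 + q 3), sq_nonneg (q 1 - q 2), sq_nonneg (q 1 + q 2),
      sq_nonneg (q 1 - q 3), sq_nonneg (q 1 + q 3), sq_nonneg (q 2 - q 3), sq_nonneg (q 2 + q 3)]

/-- integer tetrahedron inside the box of radius `B`: the grid of side `(24 B + 1) k²`
contains at least `k¹⁰ / 256` similar copies. -/
theorem grid_count (T : Finset E3) (hT : IsTetrahedron T) (B : ℕ)
    (hint : ∀ x ∈ T, ∃ w : Fin 3 → ℤ, (∀ i, x i = (w i : ℝ)) ∧ ∀ i, |w i| ≤ B) (k : ℕ) :
    k ^ 10 ≤ 256 * simCount (grid ((24 * B + 1) * k ^ 2)) T := by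
  let V : Finset (Fin 3 → ℤ) :=
    Fintype.piFinset (fun _ : Fin 3 => Finset.Ico (12 * B * k ^ 2 : ℤ) (12 * B * k ^ 2 + k ^ 2))
  let Q : Finset Q4 := Fintype.piFinset (fun _ : Fin 4 => Finset.Icc (1 : ℤ) k)
  have hcard : (V ×ˢ Q).card = k ^ 10 := by
    rw [Finset.card_product, Fintype.card_piFinset, Fintype.card_piFinset]
    simp
    rw [show ((k : ℤ) ^ 2).toNat = k ^ 2 by
      rw [← Nat.cast_pow]; exact Int.toNat_natCast _]
    ring
  rw [← hcard]
  apply card_le_simCount T hT
  · intro a ha i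
    rw [Finset.mem_product, Fintype.mem_piFinset, Fintype.mem_piFinset] at ha
    have := ha.2 i
    rw [Finset.mem_Icc] at this
    omega
  · intro a ha x hx
    rw [Finset.mem_product, Fintype.mem_piFinset, Fintype.mem_piFinset] at ha
    obtain ⟨w, hw, hwB⟩ := hint x hx
    have hN : Nq a.2 ≤ 4 * k ^ 2 := by
      have h (i : Fin 4) : a.2 i ^ 2 ≤ (k : ℤ) ^ 2 := by
        have := ha.2 i
        rw [Finset.mem_Icc] at this
        nlinarith
      unfold Nq
      linarith [h 0, h 1, h 2, h 3]
    have key (i : Fin 3) : |∑ j, R a.2 i j * w j| ≤ 12 * B * k ^ 2 := by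
      calc |∑ j, R a.2 i j * w j| ≤ ∑ j, |R a.2 i j * w j| := Finset.abs_sum_le_sum_abs _ _
        _ ≤ ∑ _j : Fin 3, (4 * k ^ 2) * (B : ℤ) := by
            apply Finset.sum_le_sum
            intro j _
            rw [abs_mul]
            exact mul_le_mul ((abs_R_le a.2 i j).trans hN) (hwB j) (abs_nonneg _) (by positivity)
        _ = 12 * B * k ^ 2 := by
            simp
            ring
    apply mem_grid _ _ (fun i => a.1 i + ∑ j, R a.2 i j * w j)
    · intro i
      rw [phi_apply]
      push_cast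
      congr 1
      exact Finset.sum_congr rfl (fun j _ => by rw [hw j])
    · intro i
      have h1 := ha.1 i
      rw [Finset.mem_Ico] at h1
      have h2 := abs_le.1 (key i)
      linarith [h1.1, h2.1]
    · intro i
      have h1 := ha.1 i
      rw [Finset.mem_Ico] at h1
      have h2 := abs_le.1 (key i)
      push_cast
      linarith [h1.2, h2.2]

end Run7.h404.Tetra
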