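import Mathlib

namespace Run7.h404.Tetra

/-- Euclidean three-space. -/
abbrev E3 : Type := EuclideanSpace ℝ (Fin 3)

/-- A similarity of three-space: all distances are multiplied by one positive factor. -/
def IsSimilarity (φ : E3 → E3) : Prop :=
  ∃ c : ℝ, 0 < c ∧ ∀ x y : E3, dist (φ x) (φ y) = c * dist x y

/-- A tetrahedron: four points of three-space that do not lie in a plane. -/
def IsTetrahedron (T : Finset E3) : Prop :=
  T.card = 4 ∧ AffineIndependent ℝ (fun x : T => (x : E3))

/-- The number of subsets of `P` that are similar to `T`. -/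
noncomputable def simCount (P T : Finset E3) : ℕ :=
  {S : Finset E3 | S ⊆ P ∧ ∃ φ : E3 → E3, IsSimilarity φ ∧ φ '' (T : Set E3) = (S : Set E3)}.ncard

end Run7.h404.Tetra
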