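import Pool.Agent.Run7.h404.TetraCount

namespace Run7.h404.Tetra

open Finset

theorem one_le_simCount (T P : Finset E3) (h : T ⊆ P) : 1 ≤ simCount P T := by
  have : 0 < simCount P T := by
    rw [simCount, Set.ncard_pos (simCount_set_finite P T)]
    exact ⟨T, h, id, ⟨1, one_pos, fun x y => by simp⟩, by simp⟩
  exact this

/-- the lower bound for integer tetrahedra -/
theorem main_int (T : Finset E3) (hT : IsTetrahedron T) (B : ℕ)
    (hint : ∀ x ∈ T, ∃ w : Fin 3 → ℤ, (∀ i, x i = (w i : ℝ)) ∧ ∀ i, |w i| ≤ B) :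
    ∃ c : ℝ, 0 < c ∧ ∀ n : ℕ, 4 ≤ n → ∃ P : Finset E3, P.card = n ∧
      c * (n : ℝ) ^ (5 / 3 : ℝ) ≤ simCount P T := by
  have hA : 1 ≤ 24 * B + 1 := by omega
  obtain ⟨A, hAdef⟩ : ∃ A, A = 24 * B + 1 := ⟨_, rfl⟩
  rw [← hAdef] at hA
  have hA' : (1 : ℝ) ≤ (A : ℝ) := by exact_mod_cast hA
  refine ⟨1 / (256 * 1024 * (A : ℝ) ^ 5), by positivity, ?_⟩
  intro n hn
  have key (x : ℝ) (hx : 0 ≤ x) (h : (n : ℝ) ≤ x ^ 3) : (n : ℝ) ^ (5 / 3 : ℝ) ≤ x ^ 5 := by
    calc (n : ℝ) ^ (5 / 3 : ℝ) ≤ (x ^ 3) ^ (5 / 3 : ℝ) :=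
          Real.rpow_le_rpow (Nat.cast_nonneg _) h (by norm_num)
      _ = x ^ 5 := by
          rw [← Real.rpow_natCast x 3, ← Real.rpow_mul hx, ← Real.rpow_natCast x 5]
          norm_num
  let p : ℕ → Prop := fun k => (A * k ^ 2) ^ 3 ≤ n
  have hp0 : p 0 := by simp [p]
  obtain ⟨k, hk⟩ : ∃ k, k = Nat.findGreatest p n := ⟨_, rfl⟩
  have hpk : (A * k ^ 2) ^ 3 ≤ n := by
    have : p (Nat.findGreatest p n) := Nat.findGreatest_spec (Nat.zero_le n) hp0
    rw [← hk] at this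
    exact this
  have hkn : k < n + 1 := by
    have := Nat.findGreatest_le (P := p) n
    omega
  have hpk1 : n < (A * (k + 1) ^ 2) ^ 3 := by
    by_contra hcon
    push Not at hcon
    have hle : k + 1 ≤ n := by
      calc k + 1 ≤ (k + 1) ^ 6 := Nat.le_self_pow (by norm_num) _
        _ ≤ A ^ 3 * (k + 1) ^ 6 := Nat.le_mul_of_pos_left _ (by positivity)
        _ = (A * (k + 1) ^ 2) ^ 3 := by ring
        _ ≤ n := hcon
    have := Nat.le_findGreatest (P := p) hle hcon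
    omega
  rcases Nat.eq_zero_or_pos k with hk0 | hkpos
  · obtain ⟨P, hTP, hPn⟩ := Infinite.exists_superset_card_eq T n (by rw [hT.1]; exact hn)
    refine ⟨P, hPn, ?_⟩
    have h1 : (1 : ℝ) ≤ simCount P T := by exact_mod_cast one_le_simCount T P hTP
    have h2 : (n : ℝ) ≤ (A : ℝ) ^ 3 := by
      rw [hk0] at hpk1
      simp at hpk1
      exact_mod_cast hpk1.le
    have h3 := key A (by positivity) h2
    calc 1 / (256 * 1024 * (A : ℝ) ^ 5) * (n : ℝ) ^ (5 / 3 : ℝ)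
        ≤ 1 / (256 * 1024 * (A : ℝ) ^ 5) * (A : ℝ) ^ 5 := by gcongr
      _ = 1 / (256 * 1024) := by field_simp
      _ ≤ 1 := by norm_num
      _ ≤ _ := h1
  · obtain ⟨P, hTP, hPn⟩ := Infinite.exists_superset_card_eq (grid (A * k ^ 2)) n
      (by rw [card_grid]; exact hpk)
    refine ⟨P, hPn, ?_⟩
    have hc : k ^ 10 ≤ 256 * simCount P T := by
      have h1 := grid_count T hT B hint k
      rw [← hAdef] at h1
      exact h1.trans (Nat.mul_le_mul_left _ (simCount_mono hTP T))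
    have hc' : (k : ℝ) ^ 10 ≤ 256 * simCount P T := by exact_mod_cast hc
    have h2 : (n : ℝ) ≤ (4 * (A : ℝ) * (k : ℝ) ^ 2) ^ 3 := by
      have : n ≤ (4 * A * k ^ 2) ^ 3 := by
        calc n ≤ (A * (k + 1) ^ 2) ^ 3 := hpk1.le
          _ ≤ (A * (2 * k) ^ 2) ^ 3 := by
              apply Nat.pow_le_pow_left
              apply Nat.mul_le_mul_left
              apply Nat.pow_le_pow_left
              omega
          _ = (4 * A * k ^ 2) ^ 3 := by ring
      exact_mod_cast this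
    have h3 := key _ (by positivity) h2
    calc 1 / (256 * 1024 * (A : ℝ) ^ 5) * (n : ℝ) ^ (5 / 3 : ℝ)
        ≤ 1 / (256 * 1024 * (A : ℝ) ^ 5) * (4 * (A : ℝ) * (k : ℝ) ^ 2) ^ 5 := by gcongr
      _ = (k : ℝ) ^ 10 / 256 := by field_simp; ring
      _ ≤ simCount P T := by linarith

open Classical in
/-- the lower bound for rational tetrahedra -/
theorem main_rat (T : Finset E3) (hT : IsTetrahedron T) (hQ : ∀ x ∈ T, ∀ i, ∃ r : ℚ, x i = (r : ℝ)) :
    ∃ c : ℝ, 0 < c ∧ ∀ n : ℕ, 4 ≤ n → ∃ P : Finset E3, P.card = n ∧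
      c * (n : ℝ) ^ (5 / 3 : ℝ) ≤ simCount P T := by
  choose! r hr using hQ
  -- common denominator
  let D : ℕ := ∏ x ∈ T, ∏ i, (r x i).den
  have hD : 0 < D := Finset.prod_pos (fun x _ => Finset.prod_pos (fun i _ => (r x i).den_pos))
  have hDR : (0 : ℝ) < (D : ℝ) := by exact_mod_cast hD
  have hdvd (x : E3) (hx : x ∈ T) (i : Fin 3) : ∃ m : ℤ, (D : ℝ) * x i = (m : ℝ) := by
    have h1 : (r x i).den ∣ D :=
      (Finset.dvd_prod_of_mem (fun i => (r x i).den) (Finset.mem_univ i)).trans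
        (Finset.dvd_prod_of_mem (fun x => ∏ i, (r x i).den) hx)
    obtain ⟨e, he⟩ := h1
    refine ⟨e * (r x i).num, ?_⟩
    rw [hr x hx i, he]
    have h2 : ((r x i).den : ℝ) * ((r x i : ℚ) : ℝ) = ((r x i).num : ℝ) := by
      have := Rat.den_mul_eq_num (r x i)
      exact_mod_cast this
    push_cast
    rw [mul_comm ((r x i).den : ℝ) (e : ℝ), mul_assoc, h2]
  choose! w hw using hdvd
  let g : E3 → E3 := fun x => (D : ℝ) • x
  have hginj : Function.Injective g := smul_right_injective E3 hDR.ne'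
  let T' : Finset E3 := T.map ⟨g, hginj⟩
  have hT' : IsTetrahedron T' := by
    refine ⟨by rw [Finset.card_map]; exact hT.1, ?_⟩
    let f : E3 →ᵃ[ℝ] E3 := ((D : ℝ) • (LinearMap.id : E3 →ₗ[ℝ] E3)).toAffineMap
    have hf : ⇑f = g := by
      funext x
      simp [f, g]
    have h1 := (hT.2.map' f (by rw [hf]; exact hginj)).range
    have h2 : Set.range (f ∘ fun x : T => (x : E3)) = (T' : Set E3) := by
      ext y
      simp [T', hf]
    rw [h2] at h1
    exact h1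
  obtain ⟨B, hB⟩ : ∃ B : ℕ, ∀ x ∈ T, ∀ i, |w x i| ≤ B := by
    refine ⟨∑ x ∈ T, ∑ i, (w x i).natAbs, fun x hx i => ?_⟩
    have h1 : (w x i).natAbs ≤ ∑ i, (w x i).natAbs :=
      Finset.single_le_sum (f := fun i => (w x i).natAbs) (fun _ _ => Nat.zero_le _)
        (Finset.mem_univ i)
    have h2 : ∑ i, (w x i).natAbs ≤ ∑ x ∈ T, ∑ i, (w x i).natAbs :=
      Finset.single_le_sum (f := fun x => ∑ i, (w x i).natAbs) (fun _ _ => Nat.zero_le _) hx
    rw [Int.abs_eq_natAbs]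
    exact_mod_cast h1.trans h2
  obtain ⟨c, hc, hmain⟩ := main_int T' hT' B (by
    intro y hy
    rw [Finset.mem_map] at hy
    obtain ⟨x, hx, rfl⟩ := hy
    refine ⟨w x, fun i => ?_, hB x hx⟩
    simpa [g] using hw x hx i)
  refine ⟨c, hc, fun n hn => ?_⟩
  obtain ⟨P, hP, hcount⟩ := hmain n hn
  refine ⟨P, hP, hcount.trans ?_⟩
  have : simCount P T' ≤ simCount P T := by
    apply Set.ncard_le_ncard _ (simCount_set_finite P T)
    rintro S ⟨h1, φ, ⟨c', hc', hφ⟩, h2⟩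
    refine ⟨h1, φ ∘ g, ⟨c' * D, by positivity, fun x y => ?_⟩, ?_⟩
    · rw [Function.comp_apply, Function.comp_apply, hφ, dist_smul₀]
      simp only [Real.norm_natCast]
      ring
    · rw [← h2, Set.image_comp]
      simp [T', g]
  exact_mod_cast this

end Run7.h404.Tetra
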